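import Pool.Agent.H50.ODG.Targets

/-!
# D0Y: the reflection is a symmetry
-/

set_option autoImplicit false

namespace Pool.Agent.H52.ODG

open Pool.Agent.H57.CP Pool.Agent.H39.TO Pool.Agent.H39.OD Pool.Agent.H50.ODG

theorem im_mul (g h : Equiv.Perm H3) (A : Set H3) : ⇑(g * h) '' A = g '' (h '' A) := by
  rw [Equiv.Perm.coe_mul, Set.image_comp]

theorem im2_mul (g h : Equiv.Perm H3) (F : Set (Set H3)) :
    Set.image ⇑(g * h) '' F = Set.image g '' (Set.image h '' F) := by
  rw [Set.image_image]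
  refine Set.image_congr fun A _ => ?_
  exact im_mul g h A

theorem im2_one (F : Set (Set H3)) : Set.image ⇑(1 : Equiv.Perm H3) '' F = F := by
  simp

/-- conjugation of a closure -/
theorem cj_closure (s : Equiv.Perm H3) (hs : s * s = 1) (A B : Set (Equiv.Perm H3))
    (h : ∀ a ∈ A, s * a * s ∈ Subgroup.closure B) :
    ∀ g ∈ Subgroup.closure A, s * g * s ∈ Subgroup.closure B := by
  have hinv : s⁻¹ = s := inv_eq_of_mul_eq_one_left hs
  intro g hg
  induction hg using Subgroup.closure_induction with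
  | mem a ha => exact h a ha
  | one =>
    rw [mul_one, hs]
    exact Subgroup.one_mem _
  | mul a b _ _ iha ihb =>
    have e : s * (a * b) * s = (s * a * s) * (s * b * s) := by
      calc s * (a * b) * s = s * a * 1 * b * s := by group
        _ = s * a * (s * s) * b * s := by rw [hs]
        _ = (s * a * s) * (s * b * s) := by group
    rw [e]
    exact Subgroup.mul_mem _ iha ihb
  | inv a _ iha =>
    have e : s * a⁻¹ * s = (s * a * s)⁻¹ := by
      rw [mul_inv_rev, mul_inv_rev, hinv, mul_assoc]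
    rw [e]
    exact Subgroup.inv_mem _ iha

/-- D0Y -/
theorem pf_D0Y (_ : T_SYG) : T_D0Y := by
  intro K x y f D r s q m d hiso hss hsx hsy hsD hsr
  have hDs : D * s = s * D⁻¹ := by
    have h1 : D * (s * D) * D⁻¹ = D * (D⁻¹ * s) * D⁻¹ := by rw [hsD]
    have h2 : D * (s * D) * D⁻¹ = D * s := by group
    have h3 : D * (D⁻¹ * s) * D⁻¹ = s * D⁻¹ := by group
    rw [h2, h3] at h1
    exact h1
  have hsDs : s * D * s = D⁻¹ := by rw [hsD, mul_assoc, hss, mul_one]
  have hsrs : s * r * s = r := by rw [hsr, mul_assoc, hss, mul_one]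
  -- conjugation by `s` on the group
  have hcj : ∀ g ∈ Gr D r, s * g * s ∈ Gr D r := by
    refine cj_closure s hss _ _ ?_
    intro a ha
    rcases ha with rfl | ha
    · rw [hsDs]
      exact Subgroup.inv_mem _ (Subgroup.subset_closure (Or.inl rfl))
    · rw [Set.mem_singleton_iff] at ha
      subst ha
      rw [hsrs]
      exact Subgroup.subset_closure (Or.inr rfl)
  have hsxy : s '' {x, y} = {x, y} := by
    rw [Set.image_pair, hsx, hsy]
  -- the involution `D s`
  set θ : Equiv.Perm H3 := D * s with hθ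
  have hθθ : θ * θ = 1 := by
    have : θ * θ = D * (s * D * s) := by
      rw [hθ]
      group
    rw [this, hsDs, mul_inv_cancel]
  have hθx : θ x = x := by
    rw [hθ, Equiv.Perm.mul_apply, hsx, d.Dx]
  have hθy : θ y = D y := by
    rw [hθ, Equiv.Perm.mul_apply, hsy]
  have hθDy : θ (D y) = y := by
    rw [← hθy, ← Equiv.Perm.mul_apply, hθθ, Equiv.Perm.one_apply]
  have hθcj : ∀ g ∈ Subgroup.closure {r, D * r * D⁻¹},
      θ * g * θ ∈ Subgroup.closure {r, D * r * D⁻¹} := by
    refine cj_closure θ hθθ _ _ ?_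
    intro a ha
    rcases ha with rfl | ha
    · have e : θ * a * θ = D * a * D⁻¹ := by
        calc θ * a * θ = D * (s * a) * (D * s) := by rw [hθ]; group
          _ = D * (a * s) * (D * s) := by rw [hsr]
          _ = D * a * (s * D * s) := by group
          _ = D * a * D⁻¹ := by rw [hsDs]
      rw [e]
      exact Subgroup.subset_closure (Or.inr rfl)
    · rw [Set.mem_singleton_iff] at ha
      subst ha
      have e : θ * (D * r * D⁻¹) * θ = r := by
        calc θ * (D * r * D⁻¹) * θ = D * (s * D) * r * s := by rw [hθ]; group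
          _ = D * (D⁻¹ * s) * r * s := by rw [hsD]
          _ = s * r * s := by group
          _ = r := hsrs
      rw [e]
      exact Subgroup.subset_closure (Or.inl rfl)
  have hθf1 : ∀ e ∈ f, θ '' e ∈ f := by
    intro e he
    rw [d.ef] at he ⊢
    obtain ⟨g, hg, he⟩ := he
    refine ⟨θ * g * θ, hθcj g hg, ?_⟩
    rcases he with rfl | rfl
    · right
      rw [im_mul (θ * g) θ, im_mul θ g, Set.image_pair (f := ⇑θ), hθx, hθDy]
    · left
      rw [im_mul (θ * g) θ, im_mul θ g, Set.image_pair (f := ⇑θ), hθx, hθy]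
  have hθf : Set.image ⇑θ '' f = f := by
    refine Set.Subset.antisymm ?_ ?_
    · rintro _ ⟨e, he, rfl⟩
      exact hθf1 e he
    · intro e he
      refine ⟨θ '' e, hθf1 e he, ?_⟩
      rw [← im_mul, hθθ]
      simp
  have hsf : Set.image ⇑s '' f = Set.image ⇑(D⁻¹ : Equiv.Perm H3) '' f := by
    have h1 : s = D⁻¹ * θ := by
      rw [hθ]
      group
    calc Set.image ⇑s '' f = Set.image ⇑(D⁻¹ * θ) '' f := by rw [← h1]
      _ = Set.image ⇑(D⁻¹ : Equiv.Perm H3) '' (Set.image ⇑θ '' f) := im2_mul _ _ _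
      _ = Set.image ⇑(D⁻¹ : Equiv.Perm H3) '' f := by rw [hθf]
  -- `s` preserves the polyhedron
  have hsv : ∀ z ∈ K.V, s z ∈ K.V := by
    intro z hz
    rw [d.eV] at hz ⊢
    obtain ⟨g, hg, rfl⟩ := hz
    refine ⟨s * g * s, hcj g hg, ?_⟩
    rw [Equiv.Perm.mul_apply, Equiv.Perm.mul_apply, hsx]
  have hse : ∀ e ∈ K.E, s '' e ∈ K.E := by
    intro e he
    rw [d.eE] at he ⊢
    obtain ⟨g, hg, rfl⟩ := he
    refine ⟨s * g * s, hcj g hg, ?_⟩
    rw [im_mul (s * g) s, im_mul s g, hsxy]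
  have hsF : ∀ h ∈ K.F, Set.image ⇑s '' h ∈ K.F := by
    intro h hh
    rw [d.eF] at hh ⊢
    obtain ⟨g, hg, rfl⟩ := hh
    have hD : D ∈ Gr D r := Subgroup.subset_closure (Or.inl rfl)
    refine ⟨s * g * s * D⁻¹, Subgroup.mul_mem _ (hcj g hg) (Subgroup.inv_mem _ hD), ?_⟩
    have h1 : s * g = s * g * s * s := by rw [mul_assoc (s * g), hss, mul_one]
    calc Set.image ⇑s '' (Set.image ⇑g '' f) = Set.image ⇑(s * g) '' f := (im2_mul s g f).symm
      _ = Set.image ⇑(s * g * s * s) '' f := by rw [← h1]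
      _ = Set.image ⇑(s * g * s) '' (Set.image ⇑s '' f) := im2_mul _ _ _
      _ = Set.image ⇑(s * g * s) '' (Set.image ⇑(D⁻¹ : Equiv.Perm H3) '' f) := by rw [hsf]
      _ = Set.image ⇑(s * g * s * D⁻¹) '' f := (im2_mul _ _ _).symm
  have hs1 : ∀ A : Set H3, s '' (s '' A) = A := by
    intro A
    rw [← im_mul, hss]
    simp
  refine d.out ⟨s, ⟨hiso, fun z => ⟨fun h => ?_, hsv z⟩, fun e => ⟨fun h => ?_, hse e⟩,
    fun h => ⟨fun h' => ?_, hsF h⟩⟩, hsx, hsy, hsf⟩
  · have := hsv _ h
    rwa [← Equiv.Perm.mul_apply, hss, Equiv.Perm.one_apply] at this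
  · have := hse _ h
    rwa [hs1] at this
  · have := hsF _ h'
    rwa [← im2_mul, hss, im2_one] at this

end Pool.Agent.H52.ODG
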