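import Pool.Agent.H50.ODG.Targets

/-!
# EXF: equivalent base points for the triangle `(2, 7, 1/3)`
-/

set_option autoImplicit false

namespace Pool.Agent.H52.ODG

open Pool.Agent.H57.CP Pool.Agent.H39.TO Pool.Agent.H39.OD Pool.Agent.H50.ODG

theorem refl_eq (a x : V4) : refl a x = x + (2 * mk a x) • a := by
  funext i
  change x i + 2 * mk a x * a i = x i + (2 * mk a x) * a i
  rfl

theorem mk_comm' (x y : V4) : mk x y = mk y x := by
  unfold mk
  ring

theorem mk_add_left' (x y z : V4) : mk (x + y) z = mk x z + mk y z := by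
  simp only [mk, Pi.add_apply]
  ring

theorem mk_smul_left' (t : ℝ) (x z : V4) : mk (t • x) z = t * mk x z := by
  simp only [mk, Pi.smul_apply, smul_eq_mul]
  ring

/-- conjugation of a reflection -/
theorem refl_conj (hLOR : T_LOR) (a v : V4) (ha : mk a a = -1) :
    refl (refl a v) = refl a * refl v * refl a := by
  obtain ⟨⟨h1, -⟩, h2⟩ := hLOR.2.2 a ha
  have h3 : ∀ x, refl a (refl a x) = x := by
    intro x
    have := LinearMap.congr_fun h2 x
    simpa using this
  refine LinearMap.ext fun x => ?_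
  change refl (refl a v) x = refl a (refl v (refl a x))
  rw [refl_eq (refl a v) x, refl_eq v (refl a x), map_add, map_smul, h3]
  have h4 : mk (refl a v) x = mk v (refl a x) := by
    rw [← h1 (refl a v) x, h3]
  rw [h4]

/-- EXF -/
theorem pf_EXF (hSTM : T_STM) (hISO : T_ISO) (hC7 : T_C7) (hLOR : T_LOR) : T_EXF := by
  intro x x' n0 n1 n2 hcf hno hin
  obtain ⟨c, hc, hcub, hc1, hc2, hcn, -, -, -⟩ := hC7
  have hcf' : Cf (((2 : ℕ) : ℚ) / ((7 : ℕ) : ℚ)) (1 / 7) (1 / 3) x x' n0 n1 n2 := by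
    have e : (((2 : ℕ) : ℚ) / ((7 : ℕ) : ℚ)) = 2 / 7 := by norm_num
    rw [e]
    exact hcf
  obtain ⟨m, hm⟩ := hSTM 2 7 (1 / 7) (1 / 3) x x' n0 n1 n2 (by norm_num) (by norm_num)
    (by norm_num) hcf'
  have hc0 : 0 < c := by linarith
  have hem : mk m n2 = c := by
    rw [hm.em, ← hc]
    norm_num
  have he12 : mk n1 n2 = c := by rw [hcf.e12, hcn]
  have hcn3 : cn (1 / 3) = 1 / 2 := by
    unfold cn
    have e : (((1 / 3 : ℚ) : ℚ) : ℝ) * Real.pi = Real.pi / 3 := by
      push_cast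
      ring
    rw [e, Real.cos_pi_div_three]
  have hs : 0 < Real.sin (Real.pi / 7) := Real.sin_pos_of_pos_of_lt_pi (by positivity) (by
    have := Real.pi_pos
    linarith)
  set d : ℝ := mk m n1 with hd
  have hcd : 4 * c * d = 1 - 2 * c := by
    have h1 := hm.eq
    rw [hcn3, hcn, ← hd] at h1
    have e1 : Real.sin (((2 : ℕ) : ℝ) * Real.pi / ((7 : ℕ) : ℝ)) =
        2 * Real.sin (Real.pi / 7) * c := by
      rw [← hc, ← Real.sin_two_mul]
      congr 1
      push_cast
      ring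
    have e2 : Real.sin (Real.pi / ((7 : ℕ) : ℝ)) = Real.sin (Real.pi / 7) := by
      norm_num
    have e3 : Real.sin ((((2 : ℕ) : ℝ) - 1) * Real.pi / ((7 : ℕ) : ℝ)) =
        Real.sin (Real.pi / 7) := by
      congr 1
      push_cast
      ring
    rw [e1, e2, e3] at h1
    have h2 : Real.sin (Real.pi / 7) * (4 * c * d) = Real.sin (Real.pi / 7) * (1 - 2 * c) := by
      linear_combination 2 * h1
    exact mul_left_cancel₀ hs.ne' h2
  have hd2 : d = -2 * c ^ 2 + c + 1 / 2 := by
    have h1 : (4 * c) * d = (4 * c) * (-2 * c ^ 2 + c + 1 / 2) := by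
      rw [hcd]
      linear_combination hcub
    exact mul_left_cancel₀ (by positivity) h1
  have hdd : 2 * d ^ 2 - 1 = -c := by
    rw [hd2]
    linear_combination (c - 1 / 2) * hcub
  -- the unit normal
  have hno' : NoO m n1 n2 := by
    rintro ⟨O, h1, h2, h3⟩
    exact hno ⟨O, hm.sp' _ h1 h3, h2, h3⟩
  have hunit : mk ((2 * c - 1) • (m - n1)) ((2 * c - 1) • (m - n1)) = -1 := by
    have h1 : mk ((2 * c - 1) • (m - n1)) ((2 * c - 1) • (m - n1)) =
        (2 * c - 1) ^ 2 * (mk m m - 2 * mk m n1 + mk n1 n1) := by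
      simp only [mk, Pi.smul_apply, Pi.sub_apply, smul_eq_mul]
      ring
    rw [h1, hm.um, hcf.u1, ← hd, hd2]
    linear_combination (2 * c - 2) * hcub
  have hiso := hISO x x' m n1 n2 (2 * c - 1) hno' hm.um hcf.u1 hcf.u2 (by rw [hem, he12])
    (by rw [he12]; nlinarith) hm.xm hcf.xc hcf.yb hcf.yc (hm.is.mp hin) hunit
  -- the normal is an image of `n1`
  set y : V4 := refl m n1 with hy
  have hyy : mk y y = -1 := by
    rw [hy, (hLOR.2.2 m hm.um).1.1 n1 n1, hcf.u1]
  have hye : y = n1 + (2 * d) • m := refl_eq m n1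
  have hyn : mk y n1 = -c := by
    rw [hye, mk_add_left', mk_smul_left', hcf.u1, ← hd]
    linear_combination hdd
  have hn : refl y n1 = (2 * c - 1) • (m - n1) := by
    rw [refl_eq, hyn, hye]
    funext i
    simp only [Pi.add_apply, Pi.smul_apply, Pi.sub_apply, smul_eq_mul]
    linear_combination (-m i) * hcd
  have hy2 : (refl y : V4 →ₗ[ℝ] V4) = refl m * refl n1 * refl m := by
    rw [hy]
    exact refl_conj hLOR m n1 hm.um
  have hr : (refl ((2 * c - 1) • (m - n1)) : V4 →ₗ[ℝ] V4) =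
      (refl m * refl n1 * refl m) * refl n1 * (refl m * refl n1 * refl m) := by
    rw [← hn, ← hy2]
    exact refl_conj hLOR y n1 hyy
  have hmG : (refl m : Module.End ℝ V4) ∈ Gam n0 n1 n2 := by
    refine Submonoid.closure_mono ?_ hm.gm
    rintro a (rfl | ha)
    · exact Or.inl rfl
    · exact Or.inr (Or.inr ha)
  have h1G : (refl n1 : Module.End ℝ V4) ∈ Gam n0 n1 n2 :=
    Submonoid.subset_closure (Or.inr (Or.inl rfl))
  have hyG : (refl m * refl n1 * refl m : Module.End ℝ V4) ∈ Gam n0 n1 n2 :=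
    Submonoid.mul_mem _ (Submonoid.mul_mem _ hmG h1G) hmG
  refine ⟨refl ((2 * c - 1) • (m - n1)), ?_, hiso⟩
  rw [hr]
  exact Submonoid.mul_mem _ (Submonoid.mul_mem _ hyG h1G) hyG

end Pool.Agent.H52.ODG
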